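import Pool.Agent.Q83.FF.Stm

/-! Project FF: `S_herm2` (generalized Hermite polynomials are translates). -/

open Polynomial Finset
open Pool.Agent.Q83.FF

namespace Pool.Agent.Q203.FF

/-- Taylor's formula with the iterated derivatives on the left. -/
lemma comp_X_sub (r : ℝ) (q : ℝ[X]) (N : ℕ) (hq : q.natDegree ≤ N) :
    q.comp (X - C r) = ∑ j ∈ range (N + 1), C ((-r) ^ j / (Nat.factorial j : ℝ)) * derivative^[j] q := by
  have hmono : ∀ m ≤ N, ((X : ℝ[X]) ^ m).comp (X - C r) =
      ∑ j ∈ range (N + 1), C ((-r) ^ j / (Nat.factorial j : ℝ)) * derivative^[j] ((X : ℝ[X]) ^ m) := by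
    intro m hm
    rw [pow_comp, X_comp, sub_eq_add_neg, add_comm X, ← C_neg, add_pow]
    have hsub := Finset.sum_subset (s₁ := range (m + 1)) (s₂ := range (N + 1))
      (f := fun j => C ((-r) ^ j / (Nat.factorial j : ℝ)) * derivative^[j] ((X : ℝ[X]) ^ m))
      (Finset.range_subset_range.2 (by omega)) ?_
    · rw [← hsub]
      refine Finset.sum_congr rfl fun j hj => ?_
      have hj' : j ≤ m := by rw [Finset.mem_range] at hj; omega
      rw [iterate_derivative_X_pow_eq_natCast_mul, ← C_pow]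
      have h1 : ((m.descFactorial j : ℕ) : ℝ) = (Nat.factorial j : ℝ) * (m.choose j : ℝ) := by
        exact_mod_cast Nat.descFactorial_eq_factorial_mul_choose m j
      have h2 : (Nat.factorial j : ℝ) ≠ 0 := by exact_mod_cast Nat.factorial_ne_zero j
      have h3 : ((m.descFactorial j : ℕ) : ℝ[X]) = C ((m.descFactorial j : ℕ) : ℝ) := by simp
      have h4 : ((m.choose j : ℕ) : ℝ[X]) = C ((m.choose j : ℕ) : ℝ) := by simp
      rw [h3, h4, h1, ← mul_assoc, ← C_mul]
      rw [show (-r) ^ j / (Nat.factorial j : ℝ) * ((Nat.factorial j : ℝ) * (m.choose j : ℝ)) =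
        (-r) ^ j * (m.choose j : ℝ) by field_simp, C_mul]
      ring
    · intro j _ hj
      rw [Finset.mem_range, not_lt] at hj
      rw [iterate_derivative_X_pow_eq_natCast_mul, Nat.descFactorial_eq_zero_iff_lt.2 (by omega)]
      simp
  conv_lhs => rw [q.as_sum_range_C_mul_X_pow' (n := N + 1) (by omega)]
  conv_rhs => rw [q.as_sum_range_C_mul_X_pow' (n := N + 1) (by omega)]
  rw [Polynomial.sum_comp]
  simp_rw [iterate_derivative_sum, Finset.mul_sum]
  rw [Finset.sum_comm]
  refine Finset.sum_congr rfl fun m hm => ?_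
  rw [Finset.mem_range] at hm
  rw [mul_comp, C_comp, hmono m (by omega), Finset.mul_sum]
  refine Finset.sum_congr rfl fun j _ => ?_
  rw [iterate_derivative_C_mul]
  ring

/-- the terms of the double series -/
noncomputable def FT (d : ℕ) (mu c : ℝ) (jk : ℕ × ℕ) : ℝ[X] :=
  C ((-mu) ^ jk.1 / (Nat.factorial jk.1 : ℝ) * ((-c) ^ jk.2 / (Nat.factorial jk.2 : ℝ))) *
    derivative^[jk.1 + 2 * jk.2] (X ^ d)

lemma FT_zero (d : ℕ) (mu c : ℝ) (jk : ℕ × ℕ) (h : d < jk.1 + jk.2) : FT d mu c jk = 0 := by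
  unfold FT
  rw [iterate_derivative_eq_zero, mul_zero]
  rw [natDegree_X_pow]
  omega

lemma hop_iter (d : ℕ) (mu v : ℝ) (n : ℕ) : C ((1 : ℝ) / (Nat.factorial n : ℝ)) *
    (hop d mu v)^[n] (X ^ d) = ∑ jk ∈ antidiagonal n, FT d mu (v / (2 * ((d : ℝ) - 1))) jk := by
  set c := v / (2 * ((d : ℝ) - 1)) with hc
  set D : Module.End ℝ ℝ[X] := derivative with hD
  set A : Module.End ℝ ℝ[X] := (-mu) • D with hA
  set B : Module.End ℝ ℝ[X] := (-c) • D ^ 2 with hB
  have hAB : Commute A B := by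
    rw [hA, hB]
    exact ((Commute.refl D).pow_right 2).smul_left (-mu) |>.smul_right (-c)
  have h1 : hop d mu v = ⇑(A + B) := by
    funext p
    rw [LinearMap.add_apply, hA, hB, LinearMap.smul_apply, LinearMap.smul_apply, pow_two,
      Module.End.mul_apply, hD]
    unfold hop
    rw [← hc, smul_eq_C_mul, smul_eq_C_mul, C_neg, C_neg]
    ring
  have h2 : (hop d mu v)^[n] (X ^ d) = ((A + B) ^ n) (X ^ d) := by
    rw [h1, Module.End.pow_apply]
  have hpow : ∀ m : ℕ, ∀ p : ℝ[X], (D ^ m) p = derivative^[m] p := by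
    intro m p
    rw [Module.End.pow_apply, hD]
  have h3 : (A + B) ^ n = ∑ jk ∈ antidiagonal n, (n.choose jk.1) • (A ^ jk.1 * B ^ jk.2) :=
    hAB.add_pow' n
  rw [h2, h3, LinearMap.sum_apply, Finset.mul_sum]
  refine Finset.sum_congr rfl fun jk hjk => ?_
  rw [HasAntidiagonal.mem_antidiagonal] at hjk
  unfold FT
  rw [LinearMap.smul_apply, Module.End.mul_apply, hA, hB, _root_.smul_pow, _root_.smul_pow, LinearMap.smul_apply,
    LinearMap.smul_apply, map_smul, ← pow_mul, hpow, hpow, ← Function.iterate_add_apply,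
    smul_eq_C_mul, smul_eq_C_mul, nsmul_eq_mul]
  have h4 : ((n.choose jk.1 : ℕ) : ℝ[X]) = C ((n.choose jk.1 : ℕ) : ℝ) := by simp
  rw [h4, ← mul_assoc, ← mul_assoc, ← mul_assoc, ← C_mul, ← C_mul, ← C_mul]
  congr 2
  have h5 : ((n.choose jk.1 : ℕ) : ℝ) * (Nat.factorial jk.1 : ℝ) * (Nat.factorial jk.2 : ℝ) =
      (Nat.factorial n : ℝ) := by
    have h := Nat.choose_mul_factorial_mul_factorial (n := n) (k := jk.1) (by omega)
    rw [show n - jk.1 = jk.2 by omega] at h
    exact_mod_cast h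
  have h6 : (Nat.factorial n : ℝ) ≠ 0 := by exact_mod_cast Nat.factorial_ne_zero n
  have h7 : (Nat.factorial jk.1 : ℝ) ≠ 0 := by exact_mod_cast Nat.factorial_ne_zero _
  have h8 : (Nat.factorial jk.2 : ℝ) ≠ 0 := by exact_mod_cast Nat.factorial_ne_zero _
  field_simp
  rw [← h5]
  ring

theorem t_herm2 : S_herm2 := by
  intro d mu v a hd ha
  set c := v / (2 * ((d : ℝ) - 1)) with hc
  have hPa : (P a).natDegree ≤ d := by
    unfold P
    rw [natDegree_finsetProd_X_sub_C_eq_card]
    simp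
  have h1 : P (fun i => a i + mu) = (P a).comp (X - C mu) := by
    unfold P
    rw [Polynomial.prod_comp]
    refine Finset.prod_congr rfl fun i _ => ?_
    simp only [sub_comp, X_comp, C_comp, C_add]
    ring
  rw [h1, comp_X_sub mu (P a) d hPa, ha]
  have hheat : heat d v (X ^ d) = ∑ k ∈ range (d + 1),
      C ((-c) ^ k / (Nat.factorial k : ℝ)) * derivative^[2 * k] (X ^ d) := by
    unfold heat
    rw [← hc]
  have hR : ∑ j ∈ range (d + 1), C ((-mu) ^ j / (Nat.factorial j : ℝ)) *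
      derivative^[j] (heat d v (X ^ d)) =
      ∑ jk ∈ range (d + 1) ×ˢ range (d + 1), FT d mu c jk := by
    rw [Finset.sum_product]
    refine Finset.sum_congr rfl fun j _ => ?_
    rw [hheat, iterate_derivative_sum, Finset.mul_sum]
    refine Finset.sum_congr rfl fun k _ => ?_
    unfold FT
    rw [iterate_derivative_C_mul, ← Function.iterate_add_apply, ← mul_assoc, ← C_mul]
  rw [hR]
  unfold herm
  rw [Finset.sum_congr rfl fun n _ => hop_iter d mu v n, ← hc]
  rw [Finset.sum_sigma']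
  -- compare
  symm
  refine Finset.sum_of_injOn (fun x => x.2) ?_ ?_ ?_ ?_
  · rintro ⟨n, jk⟩ h ⟨n', jk'⟩ h' he
    simp only [Finset.coe_sigma, Set.mem_sigma_iff, Finset.mem_coe, HasAntidiagonal.mem_antidiagonal] at h h' he
    subst he
    have : n = n' := by rw [← h.2, ← h'.2]
    subst this
    rfl
  · rintro ⟨n, jk⟩ h
    simp only [Finset.coe_sigma, Set.mem_sigma_iff, Finset.mem_coe, HasAntidiagonal.mem_antidiagonal,
      Finset.mem_range] at h
    simp only [Finset.coe_product, Set.mem_prod, Finset.mem_coe, Finset.mem_range]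
    omega
  · rintro jk - h
    apply FT_zero
    by_contra hcon
    apply h
    refine ⟨⟨jk.1 + jk.2, jk⟩, ?_, rfl⟩
    simp only [Finset.coe_sigma, Set.mem_sigma_iff, Finset.mem_coe, HasAntidiagonal.mem_antidiagonal,
      Finset.mem_range]
    exact ⟨by omega, trivial⟩
  · rintro ⟨n, jk⟩ _
    rfl

end Pool.Agent.Q203.FF
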