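import Pool.Agent.Q83.FF.Stm

/-! Project FF: `S_p0` (the first coefficients of `heat d (-v) (P a)`). -/

open Polynomial Finset
open Pool.Agent.Q83.FF

namespace Pool.Agent.Q203.FF

lemma natDegree_prod {ι : Type*} (s : Finset ι) (c : ι → ℝ) :
    (∏ i ∈ s, (X - C (c i))).natDegree = s.card := by
  rw [natDegree_finsetProd_X_sub_C_eq_card]

lemma monic_prod {ι : Type*} (s : Finset ι) (c : ι → ℝ) :
    (∏ i ∈ s, (X - C (c i))).Monic := monic_prod_of_monic _ _ fun _ _ => monic_X_sub_C _

lemma coeff_card {ι : Type*} (s : Finset ι) (c : ι → ℝ) :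
    (∏ i ∈ s, (X - C (c i))).coeff s.card = 1 := by
  have h := (monic_prod s c).coeff_natDegree
  rwa [natDegree_prod] at h

lemma coeff_succ_mul (a : ℝ) (q : ℝ[X]) (m : ℕ) :
    ((X - C a) * q).coeff (m + 1) = q.coeff m - a * q.coeff (m + 1) := by
  rw [sub_mul, coeff_sub, coeff_X_mul, coeff_C_mul]

lemma coeff_zero_mul (a : ℝ) (q : ℝ[X]) : ((X - C a) * q).coeff 0 = - (a * q.coeff 0) := by
  rw [sub_mul, coeff_sub, coeff_C_mul, mul_coeff_zero, coeff_X_zero]
  ring

lemma coeffs {ι : Type*} [DecidableEq ι] (s : Finset ι) (c : ι → ℝ) :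
    (∀ n, s.card = n + 1 → (∏ i ∈ s, (X - C (c i))).coeff n = - ∑ i ∈ s, c i) ∧
    (∀ n, s.card = n + 2 → 2 * (∏ i ∈ s, (X - C (c i))).coeff n =
      (∑ i ∈ s, c i) ^ 2 - ∑ i ∈ s, c i ^ 2) := by
  induction s using Finset.induction_on with
  | empty => exact ⟨fun n h => by simp at h, fun n h => by simp at h⟩
  | insert a s ha ih =>
    obtain ⟨ih1, ih2⟩ := ih
    have hcd := coeff_card s c
    constructor
    · intro n hn
      rw [card_insert_of_notMem ha] at hn
      have hn' : s.card = n := by omega
      rw [Finset.prod_insert ha, Finset.sum_insert ha]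
      rcases n with _ | m
      · rw [hn'] at hcd
        have hs : s = ∅ := Finset.card_eq_zero.1 hn'
        rw [coeff_zero_mul, hcd, hs]
        simp
      · rw [hn'] at hcd
        rw [coeff_succ_mul, hcd, ih1 m hn']
        ring
    · intro n hn
      rw [card_insert_of_notMem ha] at hn
      have hn' : s.card = n + 1 := by omega
      rw [Finset.prod_insert ha, Finset.sum_insert ha, Finset.sum_insert ha]
      rcases n with _ | m
      · rw [coeff_zero_mul, ih1 0 hn']
        obtain ⟨b, hb⟩ := Finset.card_eq_one.1 hn'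
        rw [hb]
        simp
        ring
      · rw [coeff_succ_mul, ih1 (m + 1) hn']
        have := ih2 m hn'
        linarith [this]

theorem t_p0 : S_p0 := by
  intro d a v hd hs hv
  have hcard : (univ : Finset (Fin d)).card = d := by simp
  obtain ⟨c1, c2⟩ := coeffs (univ : Finset (Fin d)) a
  have hP : P a = ∏ i ∈ univ, (X - C (a i)) := rfl
  have hlead : (P a).coeff d = 1 := by
    have := coeff_card (univ : Finset (Fin d)) a
    rwa [hcard] at this
  have hbig : ∀ m, d < m → (P a).coeff m = 0 := by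
    intro m hm
    apply coeff_eq_zero_of_natDegree_lt
    rw [hP, natDegree_prod, hcard]
    exact hm
  obtain ⟨e, rfl⟩ : ∃ e, d = e + 2 := ⟨d - 2, by omega⟩
  have h1 : (P a).coeff (e + 1) = 0 := by
    rw [hP, c1 (e + 1) (by rw [hcard]), hs, neg_zero]
  have h2 : 2 * (P a).coeff e = - ∑ i, a i ^ 2 := by
    rw [hP, c2 e (by rw [hcard]), hs]
    ring
  have hcoef : ∀ m, (heat (e + 2) (-v) (P a)).coeff m = ∑ k ∈ range (e + 2 + 1),
      (-(-v / (2 * (((e + 2 : ℕ) : ℝ) - 1)))) ^ k / (Nat.factorial k : ℝ) *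
        (((m + 2 * k).descFactorial (2 * k) : ℕ) * (P a).coeff (m + 2 * k)) := by
    intro m
    unfold heat
    rw [finsetSum_coeff]
    refine Finset.sum_congr rfl fun k _ => ?_
    rw [coeff_C_mul, coeff_iterate_derivative, nsmul_eq_mul]
  constructor
  · rw [show e + 2 - 1 = e + 1 from rfl, hcoef, Finset.sum_eq_single 0]
    · simp [h1]
    · intro k _ hk
      rw [hbig _ (by omega)]
      simp
    · intro h
      simp at h
  · rw [show e + 2 - 2 = e from rfl, hcoef, ← Finset.sum_subset (s₁ := range 2)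
      (Finset.range_subset_range.2 (by omega))]
    · rw [Finset.sum_range_succ, Finset.sum_range_one]
      have hdesc : (e + 2).descFactorial 2 = (e + 2) * (e + 1) := by
        simp [Nat.descFactorial]
        ring
      have hne : ((e : ℝ) + 2 - 1) ≠ 0 := by
        have : (0 : ℝ) ≤ e := Nat.cast_nonneg _
        linarith
      have hne2 : ((e : ℝ) + 2) ≠ 0 := by positivity
      have h3 : (P a).coeff e = - (∑ i, a i ^ 2) / 2 := by linarith
      simp only [mul_zero, Nat.descFactorial_zero, pow_zero, Nat.factorial_zero, add_zero, mul_one,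
        pow_one, Nat.factorial_one, Nat.cast_one, hdesc, hlead, h3]
      rw [hv]
      push_cast
      field_simp
      ring
    · intro k _ hk
      rw [Finset.mem_range, not_lt] at hk
      rw [hbig _ (by omega)]
      simp

end Pool.Agent.Q203.FF
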