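import Pool.Agent.Q83.FF.Stm

/-! Project FF: `S_two` (a polynomial `f` with `f + e` and `f - e` real-rooted has simple roots). -/

open Polynomial Finset
open Pool.Agent.Q83.FF

namespace Pool.Agent.Q203.FF

/-- `p'(x)^2 - p(x) p''(x)` -/
noncomputable def lag (p : ℝ[X]) (x : ℝ) : ℝ :=
  (derivative p).eval x ^ 2 - p.eval x * (derivative (derivative p)).eval x

lemma lag_mul (a : ℝ) (q : ℝ[X]) (x : ℝ) :
    lag ((X - C a) * q) x = q.eval x ^ 2 + (x - a) ^ 2 * lag q x := by
  unfold lag
  simp only [derivative_mul, derivative_sub, derivative_X, derivative_C, sub_zero, one_mul,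
    derivative_add, eval_add, eval_mul, eval_sub, eval_X, eval_C]
  ring

lemma lag_nonneg {ι : Type*} [DecidableEq ι] (s : Finset ι) (c : ι → ℝ) (x : ℝ) :
    0 ≤ lag (∏ i ∈ s, (X - C (c i))) x := by
  induction s using Finset.induction_on with
  | empty => simp [lag]
  | insert a s ha ih =>
    rw [Finset.prod_insert ha, lag_mul]
    positivity

lemma lag_pos {ι : Type*} [DecidableEq ι] (s : Finset ι) (hs : s.Nonempty) (c : ι → ℝ) (x : ℝ)
    (hx : (∏ i ∈ s, (X - C (c i))).eval x ≠ 0) :
    0 < lag (∏ i ∈ s, (X - C (c i))) x := by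
  obtain ⟨a, ha⟩ := hs
  rw [← Finset.insert_erase ha, Finset.prod_insert (Finset.notMem_erase a s), lag_mul]
  rw [← Finset.insert_erase ha, Finset.prod_insert (Finset.notMem_erase a s), eval_mul] at hx
  have h1 := right_ne_zero_of_mul hx
  have h2 := lag_nonneg (s.erase a) c x
  have h3 : 0 < (∏ i ∈ s.erase a, (X - C (c i))).eval x ^ 2 := by positivity
  nlinarith [mul_nonneg (sq_nonneg (x - c a)) h2]

lemma lag_P {d : ℕ} (c : Fin d → ℝ) (hd : 0 < d) (x : ℝ) (hx : (P c).eval x ≠ 0) :
    0 < lag (P c) x := by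
  unfold P at hx ⊢
  exact lag_pos univ ⟨⟨0, hd⟩, mem_univ _⟩ c x hx

theorem t_two : S_two := by
  intro d c c' c'' e he h1 h2 i j hij
  by_contra hne
  have hd : 0 < d := lt_of_le_of_lt (Nat.zero_le _) i.2
  set x := c i with hx
  have hfac : P c = (X - C (c i)) * ((X - C (c j)) * ∏ k ∈ (univ.erase i).erase j, (X - C (c k))) := by
    unfold P
    rw [← Finset.mul_prod_erase univ _ (mem_univ i), ← Finset.mul_prod_erase (univ.erase i) _
      (Finset.mem_erase.2 ⟨Ne.symm hne, mem_univ j⟩)]
  have e0 : (P c).eval x = 0 := by rw [hfac]; simp [hx]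
  have e1 : (derivative (P c)).eval x = 0 := by
    have hcc : c i - c j = 0 := by rw [← hx, hij]; ring
    rw [hfac]
    simp [derivative_mul, hx, hcc]
  have k1 := lag_P c' hd x (by rw [h1]; simp [e0, he.ne'])
  have k2 := lag_P c'' hd x (by rw [h2]; simp [e0, he.ne'])
  rw [h1] at k1
  rw [h2] at k2
  unfold lag at k1 k2
  simp only [derivative_add, derivative_sub, derivative_C, add_zero, sub_zero, eval_add, eval_sub,
    eval_C, e0, e1] at k1 k2
  nlinarith

end Pool.Agent.Q203.FF
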