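import Pool.Agent.Q83.FF.Stm

/-! Project FF: `S_vareq` (an elementary limit). -/

open Filter Topology
open Pool.Agent.Q83.FF

namespace Pool.Agent.Q203.FF

lemma log_bound {y : ℝ} (hy : |y| ≤ 1 / 2) : |Real.log (1 + y) - y + y ^ 2 / 2| ≤ 2 * |y| ^ 3 := by
  have h1 : |-y| < 1 := by rw [abs_neg]; linarith
  have h := Real.abs_log_sub_add_sum_range_le h1 2
  simp only [Finset.sum_range_succ, Finset.sum_range_zero, sub_neg_eq_add] at h
  rw [abs_neg] at h
  have e : (0 + (-y) ^ (0 + 1) / (((0 : ℕ) : ℝ) + 1) + (-y) ^ (1 + 1) / (((1 : ℕ) : ℝ) + 1)) + Real.log (1 + y) =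
      Real.log (1 + y) - y + y ^ 2 / 2 := by
    norm_num
    ring
  rw [e] at h
  refine h.trans ?_
  rw [div_le_iff₀ (by linarith)]
  have h0 : 0 ≤ |y| ^ 3 := by positivity
  norm_num
  nlinarith

lemma lim1 (x : ℝ) : Tendsto (fun s : ℝ => s ^ 2 * (Real.log (1 + x / s) - x / s)) atTop
    (𝓝 (-(x ^ 2) / 2)) := by
  have h0 : Tendsto (fun s : ℝ => 2 * |x| ^ 3 * s⁻¹) atTop (𝓝 0) := by
    have := (tendsto_inv_atTop_zero (𝕜 := ℝ)).const_mul (2 * |x| ^ 3)
    simpa using this
  have h1 : Tendsto (fun s : ℝ => s ^ 2 * (Real.log (1 + x / s) - x / s) - (-(x ^ 2) / 2)) atTop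
      (𝓝 0) := by
    refine squeeze_zero_norm' ?_ h0
    filter_upwards [eventually_ge_atTop (2 * |x| + 1)] with s hs
    have hx0 : 0 ≤ |x| := abs_nonneg x
    have hs0 : 0 < s := by linarith
    have hy : |x / s| ≤ 1 / 2 := by
      rw [abs_div, abs_of_pos hs0, div_le_iff₀ hs0]
      linarith
    have hb := log_bound hy
    have e : s ^ 2 * (Real.log (1 + x / s) - x / s) - (-(x ^ 2) / 2) =
        s ^ 2 * (Real.log (1 + x / s) - x / s + (x / s) ^ 2 / 2) := by
      field_simp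
      ring
    rw [e, Real.norm_eq_abs, abs_mul, abs_of_pos (by positivity : 0 < s ^ 2)]
    calc s ^ 2 * |Real.log (1 + x / s) - x / s + (x / s) ^ 2 / 2| ≤ s ^ 2 * (2 * |x / s| ^ 3) := by
          gcongr
      _ = 2 * |x| ^ 3 * s⁻¹ := by
          rw [abs_div, abs_of_pos hs0]
          field_simp
  have h2 := h1.add_const (-(x ^ 2) / 2)
  simpa using h2

theorem t_vareq : S_vareq := by
  intro l v w hl0 hl1 hv hw
  have h1 := lim1 (l * v + (1 - l) * w)
  have h2 := (lim1 v).const_mul l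
  have h3 := (lim1 w).const_mul (1 - l)
  have h4 := (h1.sub h2).sub h3
  have e : -((l * v + (1 - l) * w) ^ 2) / 2 - l * (-(v ^ 2) / 2) - (1 - l) * (-(w ^ 2) / 2) =
      l * (1 - l) * (v - w) ^ 2 / 2 := by ring
  rw [e] at h4
  refine h4.congr' ?_
  filter_upwards [eventually_gt_atTop 0] with s hs
  have hm : 0 < l * v + (1 - l) * w := by
    have : 0 < 1 - l := by linarith
    positivity
  have key : ∀ x : ℝ, 0 < x → Real.log (x + s) = Real.log s + Real.log (1 + x / s) := by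
    intro x hx
    rw [← Real.log_mul hs.ne' (by positivity)]
    congr 1
    field_simp
    ring
  rw [key _ hm, key v hv, key w hw]
  field_simp
  ring

end Pool.Agent.Q203.FF
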